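import Mathlib
import Pool.Agent.HF.FErg
import Pool.Agent.HD.Par

/-!
# Mild dissipation of real quadratic Henon maps: all measures with an atom or a positive exponent
-/

open MeasureTheory Filter Pool.Agent.HD in
/-- Let `0 < |b| < 1`, `c` real and `f (x, y) = (x ^ 2 + c - b y, x)`. Let `μ` be an ergodic `f`-invariant probability
measure which is not supported on a sink (`hsink`: for every periodic atom `p`, `f^n p = p`, the derivative of `f^n` at
`p` has a real eigenvalue of modulus at least one). If `μ` has no atoms, suppose that the upper exponent is positive on a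
set which is not null. Then for almost every `p` the stable set of `p` is the image of an injective continuous curve `γ`
with `γ 0 = p`, and for every such curve both branches are unbounded. -/
theorem Pool.Agent.Results.MP_566dce_an.ErgodicMeasures.result (c b : ℝ) (hb0 : b ≠ 0)
    (hb1 : |b| < 1) (f : ℝ × ℝ → ℝ × ℝ) (hf : ∀ x y, f (x, y) = (x ^ 2 + c - b * y, x))
    (μ : Measure (ℝ × ℝ)) [IsProbabilityMeasure μ] (hμ : Ergodic f μ)
    (hsink : ∀ (p : ℝ × ℝ) (n : ℕ), 1 ≤ n → f^[n] p = p → μ {p} ≠ 0 →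
      ∃ m : ℝ, 1 ≤ |m| ∧ ∃ v : ℝ × ℝ, v ≠ 0 ∧ fderiv ℝ (f^[n]) p v = m • v)
    (hexp : (∀ p, μ {p} = 0) →
      μ {p | 0 < limsup (fun n : ℕ => Real.log ‖fderiv ℝ (f^[n]) p‖ / n) atTop} ≠ 0) :
    ∀ᵐ p ∂μ,
      (∃ γ : ℝ → ℝ × ℝ, Continuous γ ∧ Function.Injective γ ∧ γ 0 = p ∧ Set.range γ =
        {q | limsup (fun n : ℕ => ENNReal.log (edist (f^[n] q) (f^[n] p)) / ((n : ℝ) : EReal))
          atTop < 0}) ∧
      ∀ γ : ℝ → ℝ × ℝ, Continuous γ → Function.Injective γ → γ 0 = p → Set.range γ =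
        {q | limsup (fun n : ℕ => ENNReal.log (edist (f^[n] q) (f^[n] p)) / ((n : ℝ) : EReal))
          atTop < 0} →
        ¬ Bornology.IsBounded (γ '' Set.Ioi 0) ∧ ¬ Bornology.IsBounded (γ '' Set.Iio 0) := by
  have hfG : f = G 1 b c := by
    funext p
    obtain ⟨x, y⟩ := p
    rw [hf]
    simp [G]
  subst hfG
  filter_upwards [Pool.Agent.HF.erg hb0 hb1 hμ hsink hexp] with p hp
  obtain ⟨γ, h1, h2, h3, h4, h5, h6⟩ := hp
  refine ⟨⟨γ, h1, h2, h3, h4⟩, fun η e1 e2 e3 e4 => ?_⟩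
  exact par h1 h2 e1 e2 (h3.trans e3.symm) (h4.trans e4.symm) h5 h6
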