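import Pool.Agent.Helper89.GEN.Bridge

/-!
# MP_56c18a_ag: the sign conjecture for varieties with generated odd (or even) cohomology

`Weil` (in `Pool.Agent.Helper89.GEN.Defs`) contains only the definition of a Weil cohomology with
Poincaré duality and the formal rules for algebraic correspondences (it applies to de Rham
cohomology in characteristic `0` and to rational crystalline cohomology in characteristic `p`). No
theorem of geometry is assumed: no Lefschetz theorem, no positivity, no weights.

Let `e` be a parity and `𝒴` a set of varieties which satisfy `C⁺` and for which homological and
numerical equivalence coincide on the part of parity `e` of the correspondences between them. Then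

* a variety `X` satisfies `C⁺` if (and only if) its cohomology of parity `e` is a sum of subspaces,
  stable under the algebraic self-correspondences of degree `0`, each of which is generated by `𝒴`
  and non-degenerate for the Poincaré pairing, or is mapped injectively by an `F`-linear
  combination of composites of algebraic correspondences through varieties satisfying `C⁺`;
* in particular `C⁺(X)` holds if the whole cohomology of parity `e` of `X` is generated by `𝒴`, and
  the set of these `X` satisfies the two hypotheses on `𝒴` again.
-/

namespace Pool.Agent.Results.MP_56c18a_ag.Generation

open Pool.Agent.Helper89.GEN.Sign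

universe u v w

theorem result {F : Type u} [Field F] [CharZero F] {Var : Type v} {H : Var → Parity → Type w}
    [∀ X e, AddCommGroup (H X e)] [∀ X e, Module F (H X e)] [∀ X e, FiniteDimensional F (H X e)]
    (M : Weil F H) (e : Parity) (𝒴 : Set Var)
    (hC : ∀ Y ∈ 𝒴, CPlus M Y) (hN : HomNum M e 𝒴) :
    (∀ X, Covered M e 𝒴 X ↔ CPlus M X) ∧
    (∀ X ∈ {X | generated M e 𝒴 X = ⊤}, CPlus M X) ∧
    HomNum M e {X | generated M e 𝒴 X = ⊤} :=
  ⟨fun _ => ⟨cplus_of_covered M e hC hN, covered_of_cplus M e 𝒴⟩,
    fun _ hX => cplus_of_covered M e hC hN (covered_of_generated M e 𝒴 hX),
    homNum_generated M e hN⟩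

end Pool.Agent.Results.MP_56c18a_ag.Generation
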