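import Mathlib
import Pool.Agent.HE.HMain
import Pool.Agent.HD.Par

/-!
# Mild dissipation of real quadratic Henon maps: periodic saddles
-/

open Filter Pool.Agent.HD in
/-- Let `0 < |b| < 1`, `c` real and `f (x, y) = (x ^ 2 + c - b y, x)`. Let `p` be a periodic point, `f^n p = p`, such that the derivative of
`f^n` at `p` has a real eigenvalue of modulus `> 1`, and suppose that the derivative of `f^(2n)` does not have
the eigenvalue `1` or `-1` at any fixed point of `f^(2n)`. Then the stable set of `p` is the image of an injective continuous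
curve `γ` with `γ 0 = p`, and for every such curve both branches are unbounded. -/
theorem Pool.Agent.Results.MP_566dce_an.PeriodicSaddles.result (c b : ℝ) (hb0 : b ≠ 0)
    (hb1 : |b| < 1) (f : ℝ × ℝ → ℝ × ℝ) (hf : ∀ x y, f (x, y) = (x ^ 2 + c - b * y, x))
    (n : ℕ) (hn : 1 ≤ n) (p : ℝ × ℝ) (hp : f^[n] p = p)
    (hs : ∃ m : ℝ, 1 < |m| ∧ ∃ v : ℝ × ℝ, v ≠ 0 ∧ fderiv ℝ (f^[n]) p v = m • v)
    (hsn : ∀ r : ℝ × ℝ, f^[2 * n] r = r → ∀ v : ℝ × ℝ, v ≠ 0 →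
      fderiv ℝ (f^[2 * n]) r v ≠ v ∧ fderiv ℝ (f^[2 * n]) r v ≠ -v) :
    (∃ γ : ℝ → ℝ × ℝ, Continuous γ ∧ Function.Injective γ ∧ γ 0 = p ∧ Set.range γ =
      {q | limsup (fun n : ℕ => ENNReal.log (edist (f^[n] q) (f^[n] p)) / ((n : ℝ) : EReal))
        atTop < 0}) ∧
    ∀ γ : ℝ → ℝ × ℝ, Continuous γ → Function.Injective γ → γ 0 = p → Set.range γ =
      {q | limsup (fun n : ℕ => ENNReal.log (edist (f^[n] q) (f^[n] p)) / ((n : ℝ) : EReal))
        atTop < 0} →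
      ¬ Bornology.IsBounded (γ '' Set.Ioi 0) ∧ ¬ Bornology.IsBounded (γ '' Set.Iio 0) := by
  have hfG : f = G 1 b c := by
    funext p
    obtain ⟨x, y⟩ := p
    rw [hf]
    simp [G]
  subst hfG
  obtain ⟨m, hm, v, hv, hmv⟩ := hs
  obtain ⟨γ, h1, h2, h3, h4, h5, h6⟩ := Pool.Agent.HE.saddle hb0 hb1 hn hp hm hv hmv hsn
  refine ⟨⟨γ, h1, h2, h3, h4⟩, fun η e1 e2 e3 e4 => ?_⟩
  exact par h1 h2 e1 e2 (h3.trans e3.symm) (h4.trans e4.symm) h5 h6
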